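import Pool.Agent.Run7.h472.OH.Asm8

set_option autoImplicit false
open MeasureTheory ProbabilityTheory Filter
open scoped Pointwise

/-!
# Planar first-passage percolation: Q1 of MP_de94ef_pr in probability

**Theorem.** Exp(1) edge weights on `ℤ²`. Write `Far(κ, t)` for the event that
`|T(u,v) - μ(v - u)| > t^(1-κ)` for some two points `u, v` of the box `[-t, t]²`.

(1) One exponent. For all `κ' < κ < 1` there is `ε > 0` such that each of `limsup P(Far(κ, t)) < ε`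
and `P(T(0,v) ≤ E T(0,v) - A (1+|v|)^(1-κ)) ≤ A (1+|v|)^(-q)`, with one power `q > 5/(1-κ)`, implies
both estimates of Q1 with the factors `1 ± t^(-κ')`, and even stretched exponential bounds of the
two probabilities.

(2) For all `K < 1` the following are equivalent, each for all `κ ∈ (0, K)`: `P(Far(κ, t)) → 0`;
`P(Far(κ, t)) ≤ exp (-t^c)` for large `t`; both estimates of Q1 with `1 ± t^(-κ)` (for `K = 2/3`
this is Q1); the same with stretched exponential bounds; the lower tail bound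
`P(T(0,v) ≤ E T(0,v) - A (1+|v|)^(1-κ)) ≤ A (1+|v|)^(-q)` with one power `q > 5/(1-κ)`; the bounds
`E |T(0,v) - E T(0,v)|^k ≤ A (1+|v|)^(k(1-κ))` for all `k`.

So Q1 is equivalent to its version in probability, and to statements on single passage times.

Proof. Lower deviations: see `OuterHalfTails` (multiplicative moments of the deficits of
independent bad blocks, from the scale `n` to the scale `M n`). Upper deviations: the upper tails
of passage times are log-concave (starting hand-in `InnerHalf`). Lower tail around the mean: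
a doubling inequality `2 h(v) ≤ h(2v) + C (1+|v|)^(1-κ)` for the mean `h`, without any curvature
assumption, by the universal chord theorem: a nearly optimal path from `0` to `2v` has two
vertices whose difference is `v` up to a bounded error.

Parts by helpers 213, 361, 416, 472, 627, 637, 704, 711, 760, 781, 824, 889, 957, 973
(folders Run7/h.../OH).
-/

namespace Pool.Agent.Results.MP_de94ef_pr.InProbability

/-- the fattened cluster at time `t`, for the passage times `T` from the origin -/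
def Cluster (T : ℤ × ℤ → ℝ) (t : ℝ) : Set (ℝ × ℝ) :=
  {x : ℝ × ℝ | ∃ v : ℤ × ℤ, T v ≤ t ∧ |x.1 - (v.1 : ℝ)| ≤ 1 / 2 ∧ |x.2 - (v.2 : ℝ)| ≤ 1 / 2}

/-- the event that the fattened cluster at time `t` is not contained in `(1 + t ^ (-κ)) t` times
the limit shape -/
def Exceeded {Ω : Type} (T : Ω → ℤ × ℤ → ℝ) (μ : ℝ × ℝ → ℝ) (κ t : ℝ) : Set Ω :=
  {ω | ¬ (Cluster (T ω) t ⊆ ((1 + t ^ (-κ)) * t) • {x : ℝ × ℝ | μ x ≤ 1})}

/-- the event that a part of `(1 - t ^ (-κ)) t` times the limit shape is missed by the fattened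
cluster at time `t` -/
def Missed {Ω : Type} (T : Ω → ℤ × ℤ → ℝ) (μ : ℝ × ℝ → ℝ) (κ t : ℝ) : Set Ω :=
  {ω | ¬ (((1 - t ^ (-κ)) * t) • {x : ℝ × ℝ | μ x ≤ 1} ⊆ Cluster (T ω) t)}

/-- the lattice point `v` as a point of the plane -/
def pt (v : ℤ × ℤ) : ℝ × ℝ := ((v.1 : ℝ), (v.2 : ℝ))

/-- the passage time from `u` to `v` in the environment `X`, at the outcome `ω` -/
noncomputable def Time {Ω : Type} (X : Sym2 (ℤ × ℤ) → Ω → ℝ) (ω : Ω) (u v : ℤ × ℤ) : ℝ :=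
  sInf {s : ℝ | ∃ n : ℕ, ∃ p : ℕ → ℤ × ℤ, p 0 = u ∧ p n = v ∧
    (∀ i < n, |(p (i + 1)).1 - (p i).1| + |(p (i + 1)).2 - (p i).2| = 1) ∧
    s = ∑ i ∈ Finset.range n, X s(p i, p (i + 1)) ω}

/-- the event that the passage time between some two points of the box `[-t, t]²` differs by more
than `t ^ (1 - κ)` from its value for the norm `μ` -/
def Far {Ω : Type} (X : Sym2 (ℤ × ℤ) → Ω → ℝ) (μ : ℝ × ℝ → ℝ) (κ t : ℝ) : Set Ω :=
  {ω | ∃ u v : ℤ × ℤ, ‖u‖ ≤ t ∧ ‖v‖ ≤ t ∧ t ^ (1 - κ) < |Time X ω u v - μ (pt (v - u))|}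

/-- the mean passage time from the origin to `v` -/
noncomputable def mean {Ω : Type} [MeasureSpace Ω] (T : Ω → ℤ × ℤ → ℝ) (v : ℤ × ℤ) : ℝ :=
  ∫ ω, T ω v ∂(volume : Measure Ω)

/-- the one point lower tail bound: deviations of size `(1 + |v|) ^ (1 - κ)` below the mean have
probability `O(|v| ^ (-q))` -/
def LowerTail {Ω : Type} [MeasureSpace Ω] (T : Ω → ℤ × ℤ → ℝ) (κ q : ℝ) : Prop :=
  ∃ A : ℝ, 0 < A ∧ ∀ v : ℤ × ℤ,
    (volume : Measure Ω).real {ω | T ω v ≤ mean T v - A * (1 + ‖v‖) ^ (1 - κ)} ≤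
      A * (1 + ‖v‖) ^ (-q)

theorem result :
  ∀ (Ω : Type) [MeasureSpace Ω] [IsProbabilityMeasure (volume : Measure Ω)]
    (X : Sym2 (ℤ × ℤ) → Ω → ℝ) (T : Ω → ℤ × ℤ → ℝ) (μ : ℝ × ℝ → ℝ),
    (∀ e, Measurable (X e)) →
    iIndepFun X (volume : Measure Ω) →
    (∀ e, Measure.map (X e) (volume : Measure Ω) = expMeasure 1) →
    (∀ ω v, T ω v = sInf {s : ℝ | ∃ n : ℕ, ∃ p : ℕ → ℤ × ℤ, p 0 = 0 ∧ p n = v ∧
        (∀ i < n, |(p (i + 1)).1 - (p i).1| + |(p (i + 1)).2 - (p i).2| = 1) ∧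
        s = ∑ i ∈ Finset.range n, X s(p i, p (i + 1)) ω}) →
    (∀ (x : ℝ × ℝ) (c : ℝ), 0 ≤ c → μ (c • x) = c * μ x) →
    Continuous μ →
    (∀ z : ℤ × ℤ, ∀ᵐ ω ∂(volume : Measure Ω),
        Tendsto (fun n : ℕ => T ω ((n : ℤ) • z) / (n : ℝ)) atTop
          (nhds (μ ((z.1 : ℝ), (z.2 : ℝ))))) →
    -- (1) one exponent
    (∀ κ κ' : ℝ, 0 < κ' → κ' < κ → κ < 1 → ∃ ε : ℝ, 0 < ε ∧
      (((∀ᶠ t : ℝ in atTop, (volume : Measure Ω).real (Far X μ κ t) ≤ ε) ∨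
        ∃ q : ℝ, 5 / (1 - κ) < q ∧ LowerTail T κ q) →
      ∃ c : ℝ, 0 < c ∧ ∀ᶠ t : ℝ in atTop,
        (volume : Measure Ω).real (Exceeded T μ κ' t) ≤ Real.exp (-(t ^ c)) ∧
        (volume : Measure Ω).real (Missed T μ κ' t) ≤ Real.exp (-(t ^ c)))) ∧
    -- (2) all exponents below `K`; for `K = 2 / 3` the third item is Q1
    (∀ K : ℝ, K < 1 → List.TFAE [
      ∀ κ : ℝ, 0 < κ → κ < K →
        Tendsto (fun t : ℝ => (volume : Measure Ω).real (Far X μ κ t)) atTop (nhds 0),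
      ∀ κ : ℝ, 0 < κ → κ < K → ∃ c : ℝ, 0 < c ∧
        ∀ᶠ t : ℝ in atTop, (volume : Measure Ω).real (Far X μ κ t) ≤ Real.exp (-(t ^ c)),
      ∀ κ : ℝ, 0 < κ → κ < K → ∀ q : ℝ, 0 < q →
        Asymptotics.IsBigO atTop (fun t : ℝ => (volume : Measure Ω).real (Exceeded T μ κ t))
          (fun t : ℝ => t ^ (-q)) ∧
        Asymptotics.IsBigO atTop (fun t : ℝ => (volume : Measure Ω).real (Missed T μ κ t))
          (fun t : ℝ => t ^ (-q)),
      ∀ κ : ℝ, 0 < κ → κ < K → ∃ c : ℝ, 0 < c ∧ ∀ᶠ t : ℝ in atTop,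
        (volume : Measure Ω).real (Exceeded T μ κ t) ≤ Real.exp (-(t ^ c)) ∧
        (volume : Measure Ω).real (Missed T μ κ t) ≤ Real.exp (-(t ^ c)),
      ∀ κ : ℝ, 0 < κ → κ < K → ∃ q : ℝ, 5 / (1 - κ) < q ∧ LowerTail T κ q,
      ∀ κ : ℝ, 0 < κ → κ < K → ∀ k : ℕ, ∃ A : ℝ, ∀ v : ℤ × ℤ,
        Integrable (fun ω => |T ω v - mean T v| ^ k) (volume : Measure Ω) ∧
        ∫ ω, |T ω v - mean T v| ^ k ∂(volume : Measure Ω) ≤
          A * ((1 + ‖v‖) ^ (1 - κ)) ^ k]) := by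
  intro Ω _ _ X T μ h1 h2 h3 hT hhom hcont hlim
  obtain ⟨hX, hTD, p, hp, hG⟩ :=
    Pool.Agent.N662.FP.setup Ω X T μ h1 h2 h3 hT hhom hcont hlim
  subst hTD
  subst hp
  have e : ∀ κ q : ℝ, Pool.Agent.Run7.h472.OH.LT
      (fun ω v => Pool.Agent.N662.FP.D (Pool.Agent.N662.FP.env X ω) 0 v)
      (Pool.Agent.Run7.h472.OH.HH X) κ q ↔
        LowerTail (fun ω v => Pool.Agent.N662.FP.D (Pool.Agent.N662.FP.env X ω) 0 v) κ q := by
    intro κ q
    unfold Pool.Agent.Run7.h472.OH.LT LowerTail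
    simp only [Pool.Agent.Run7.h472.OH.nm_norm]
    exact Iff.rfl
  have eF : ∀ κ t : ℝ, Pool.Agent.Run7.h472.OH.Far X p κ t = Far X p κ t := by
    intro κ t
    unfold Pool.Agent.Run7.h472.OH.Far Far
    simp only [Pool.Agent.Run7.h472.OH.nm_norm]
    exact rfl
  refine ⟨?_, ?_⟩
  · intro κ κ' h0 h1 h2
    obtain ⟨ε, hε, hh⟩ := Pool.Agent.Run7.h472.OH.oneFar Pool.Agent.Run7.h472.OH.pcs
      Pool.Agent.Run7.h472.OH.pcs3 hX p hG κ κ' h0 h1 h2
    simp only [eF] at hh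
    refine ⟨ε, hε, ?_⟩
    rintro (hF | ⟨q, hq, hL⟩)
    · exact hh hF
    · exact (Pool.Agent.Run7.h472.OH.oneMean hX p hG hlim κ κ' q h0 h1 h2 hq
        ((e κ q).2 hL)).2
  · intro K hK
    have h := Pool.Agent.Run7.h472.OH.full_tfae Pool.Agent.Run7.h472.OH.pcs hX p hG hlim K hK
    simp only [e] at h
    have h4 : (∀ κ : ℝ, 0 < κ → κ < K → ∀ k : ℕ, Pool.Agent.Run7.h472.OH.CM
        (fun ω v => Pool.Agent.N662.FP.D (Pool.Agent.N662.FP.env X ω) 0 v)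
        (Pool.Agent.Run7.h472.OH.HH X) κ k) ↔
      ∀ κ : ℝ, 0 < κ → κ < K → ∀ k : ℕ, ∃ A : ℝ, ∀ v : ℤ × ℤ,
        Integrable (fun ω => |Pool.Agent.N662.FP.D (Pool.Agent.N662.FP.env X ω) 0 v -
          mean (fun ω v => Pool.Agent.N662.FP.D (Pool.Agent.N662.FP.env X ω) 0 v) v| ^ k)
          (volume : Measure Ω) ∧
        ∫ ω, |Pool.Agent.N662.FP.D (Pool.Agent.N662.FP.env X ω) 0 v -
          mean (fun ω v => Pool.Agent.N662.FP.D (Pool.Agent.N662.FP.env X ω) 0 v) v| ^ k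
          ∂(volume : Measure Ω) ≤ A * ((1 + ‖v‖) ^ (1 - κ)) ^ k := by
      unfold Pool.Agent.Run7.h472.OH.CM
      simp only [Pool.Agent.Run7.h472.OH.nm_norm]
      exact Iff.rfl
    have g := Pool.Agent.Run7.h472.OH.full_box Pool.Agent.Run7.h472.OH.pcs
      Pool.Agent.Run7.h472.OH.pcs3 hX p hG K hK
    simp only [eF] at g
    have b1 := (g.out 0 2).trans (h.out 4 0)
    have b2 := (g.out 1 2).trans (h.out 4 0)
    have a12 := h.out 0 1
    have a13 := h.out 0 2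
    have a14 := h.out 0 3
    tfae_have 1 ↔ 3 := b1
    tfae_have 2 ↔ 3 := b2
    tfae_have 3 ↔ 4 := a12
    tfae_have 3 ↔ 5 := a13
    tfae_have 3 ↔ 6 := a14.trans h4
    tfae_finish

end Pool.Agent.Results.MP_de94ef_pr.InProbability
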