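import Pool.Agent.Run7.h943.FP.Fin2
import Pool.Agent.Run7.h472.OH.Asm8
import Pool.Agent.Run7.h981.OH.Conv

set_option autoImplicit false
open MeasureTheory ProbabilityTheory Filter
open scoped Pointwise

/-!
Lower bounds for the two one-sided shape fluctuations in planar first-passage percolation with
Exp(1) weights (Q1 of MP_de94ef_pr): neither of the two estimates of Q1 holds with an exponent
larger than `4 / 5` in place of `2 / 3`.

Proofs of the pieces: helper416 (SQ), helper594 (TWO, PMU, TRL, LOW), helper921 (CM, CMD, EX, SPD),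
helper216 (DIR, GEO, LIM), helper376 (SPL, HALF, POLY, OUTF), helper637 (RT, LTO), helper24 (OEX),
helper382 (INNF), helper943 (IEX); idea, statements and assembly: helper943. The library `N662.FP`
(helper662 and others, hand-in `InnerHalf`) is used throughout; the explicit powers and the central
moments use helper472's project `Run7.h472.OH`.
-/

namespace Pool.Agent.Results.MP_de94ef_pr.OneSidedLower

/-- the fattened cluster at time `t`, for the passage times `T` from the origin -/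
def Cluster (T : ℤ × ℤ → ℝ) (t : ℝ) : Set (ℝ × ℝ) :=
  {x : ℝ × ℝ | ∃ v : ℤ × ℤ, T v ≤ t ∧ |x.1 - (v.1 : ℝ)| ≤ 1 / 2 ∧ |x.2 - (v.2 : ℝ)| ≤ 1 / 2}

/-- the event that a part of `(1 - t ^ (-κ)) t` times the limit shape is missed by the fattened
cluster at time `t` -/
def Missed {Ω : Type} (T : Ω → ℤ × ℤ → ℝ) (μ : ℝ × ℝ → ℝ) (κ t : ℝ) : Set Ω :=
  {ω | ¬ (((1 - t ^ (-κ)) * t) • {x : ℝ × ℝ | μ x ≤ 1} ⊆ Cluster (T ω) t)}

/-- the event that the fattened cluster at time `t` leaves `(1 + t ^ (-κ)) t` times the limit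
shape -/
def Escaped {Ω : Type} (T : Ω → ℤ × ℤ → ℝ) (μ : ℝ × ℝ → ℝ) (κ t : ℝ) : Set Ω :=
  {ω | ¬ (Cluster (T ω) t ⊆ ((1 + t ^ (-κ)) * t) • {x : ℝ × ℝ | μ x ≤ 1})}

/-- the lattice point `v` as a point of the plane -/
def pt (v : ℤ × ℤ) : ℝ × ℝ := ((v.1 : ℝ), (v.2 : ℝ))

/-- the passage time from `u` to `v` in the environment `X`, at the outcome `ω` -/
noncomputable def Time {Ω : Type} (X : Sym2 (ℤ × ℤ) → Ω → ℝ) (ω : Ω) (u v : ℤ × ℤ) : ℝ :=
  sInf {s : ℝ | ∃ n : ℕ, ∃ p : ℕ → ℤ × ℤ, p 0 = u ∧ p n = v ∧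
    (∀ i < n, |(p (i + 1)).1 - (p i).1| + |(p (i + 1)).2 - (p i).2| = 1) ∧
    s = ∑ i ∈ Finset.range n, X s(p i, p (i + 1)) ω}

/-- the event that the passage time between some two points of the box `[-t, t]²` is more than
`t ^ (1 - κ)` below its value for the norm `μ` -/
def Short {Ω : Type} (X : Sym2 (ℤ × ℤ) → Ω → ℝ) (μ : ℝ × ℝ → ℝ) (κ t : ℝ) : Set Ω :=
  {ω | ∃ u v : ℤ × ℤ, ‖u‖ ≤ t ∧ ‖v‖ ≤ t ∧ Time X ω u v < μ (pt (v - u)) - t ^ (1 - κ)}

theorem nm_eq (v : ℤ × ℤ) : (Pool.Agent.Run7.h472.OH.nm v : ℝ) = ‖v‖ := by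
  unfold Pool.Agent.Run7.h472.OH.nm
  rw [Prod.norm_def, Int.norm_eq_abs, Int.norm_eq_abs, Nat.cast_max, Nat.cast_natAbs,
    Nat.cast_natAbs, Int.cast_abs, Int.cast_abs]

theorem result :
  ∀ (Ω : Type) [MeasureSpace Ω] [IsProbabilityMeasure (volume : Measure Ω)]
    (X : Sym2 (ℤ × ℤ) → Ω → ℝ) (T : Ω → ℤ × ℤ → ℝ) (μ : ℝ × ℝ → ℝ),
    (∀ e, Measurable (X e)) →
    iIndepFun X (volume : Measure Ω) →
    (∀ e, Measure.map (X e) (volume : Measure Ω) = expMeasure 1) →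
    (∀ ω v, T ω v = sInf {s : ℝ | ∃ n : ℕ, ∃ p : ℕ → ℤ × ℤ, p 0 = 0 ∧ p n = v ∧
        (∀ i < n, |(p (i + 1)).1 - (p i).1| + |(p (i + 1)).2 - (p i).2| = 1) ∧
        s = ∑ i ∈ Finset.range n, X s(p i, p (i + 1)) ω}) →
    (∀ (x : ℝ × ℝ) (c : ℝ), 0 ≤ c → μ (c • x) = c * μ x) →
    Continuous μ →
    (∀ z : ℤ × ℤ, ∀ᵐ ω ∂(volume : Measure Ω),
        Tendsto (fun n : ℕ => T ω ((n : ℤ) • z) / (n : ℝ)) atTop
          (nhds (μ ((z.1 : ℝ), (z.2 : ℝ))))) →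
    -- (1) the inner half fails for every exponent above `4 / 5`, with probability `> e` for
    -- arbitrarily large times, for every `e < 1 / e`
    (∀ κ e : ℝ, 4 / 5 < κ → e < Real.exp (-1) →
      ∃ᶠ t : ℝ in atTop, e < (volume : Measure Ω).real (Missed T μ κ t)) ∧
    -- (2) the outer half fails for every exponent above `4 / 5`, for every power `q > 8 / 5`
    (∀ κ q : ℝ, 4 / 5 < κ → 8 / 5 < q → ¬ Asymptotics.IsBigO atTop
      (fun t : ℝ => (volume : Measure Ω).real (Escaped T μ κ t)) (fun t : ℝ => t ^ (-q))) ∧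
    -- (2') lower deviations in boxes, with probability bounded away from zero for arbitrarily
    -- large boxes
    (∀ κ : ℝ, 4 / 5 < κ → ∃ ε : ℝ, 0 < ε ∧
      ∃ᶠ t : ℝ in atTop, ε < (volume : Measure Ω).real (Short X μ κ t)) ∧
    -- (3) one-point upper tail
    (∀ χ e A : ℝ, χ < 1 / 5 → e < Real.exp (-1) → ∃ v : ℤ × ℤ,
      e < (volume : Measure Ω).real {ω | μ (pt v) + A * (1 + ‖v‖) ^ χ ≤ T ω v}) ∧
    -- (4) one-point lower tail
    (∀ χ q A : ℝ, χ < 1 / 5 → 25 < q → ∃ v : ℤ × ℤ, A * (1 + ‖v‖) ^ (-q) <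
      (volume : Measure Ω).real {ω | T ω v ≤ μ (pt v) - A * (1 + ‖v‖) ^ χ}) ∧
    -- (5) mean deviation from the time constant
    (∀ χ : ℝ, χ < 1 / 5 → ¬ ∃ A : ℝ, ∀ v : ℤ × ℤ,
      ∫ ω, |T ω v - μ (pt v)| ∂(volume : Measure Ω) ≤ A * (1 + ‖v‖) ^ χ) ∧
    -- (6) some central moment has an exponent at least `χ`, for every `χ < 1 / 5`
    (∀ χ : ℝ, χ < 1 / 5 → ∃ k : ℕ, ¬ ∃ A : ℝ, ∀ v : ℤ × ℤ,
      ∫⁻ ω, ENNReal.ofReal (|T ω v - ∫ ω', T ω' v| ^ k) ≤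
        ENNReal.ofReal (A * (1 + ‖v‖) ^ (χ * k))) ∧
    -- (7) the two-point inequality used as a tool
    (∀ (v : ℤ × ℤ) (a b : ℝ), 0 ≤ b → b ≤ a →
      (volume : Measure Ω).real {ω | a ^ 2 ≤ T ω v} *
        (volume : Measure Ω).real {ω | T ω v ≤ b ^ 2} ≤ Real.exp (-((a - b) ^ 2 / 2))) := by
  intro Ω _ _ X T μ h1 h2 h3 hT hhom hcont hlim
  obtain ⟨hX, hTD, p, hp, hG⟩ :=
    Pool.Agent.N662.FP.setup Ω X T μ h1 h2 h3 hT hhom hcont hlim
  subst hp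
  subst hTD
  have hTC : Run7.h943.FP.TC X p := hlim
  obtain ⟨f1, f2, f3, f4, f5⟩ := Run7.h943.FP.final Run7.h943.FP.cDIR Run7.h943.FP.cLTO
    Run7.h943.FP.cOUTF Run7.h943.FP.cINNF X hX p hG hTC
  obtain ⟨c, C, L, hc⟩ := Pool.Agent.Run7.h472.OH.t_CST p hG.norm
  obtain ⟨b, hb1, hb⟩ := Pool.Agent.Run7.h472.OH.nm_to_mu hc
  have hb' : ∀ (A χ : ℝ), χ < 1 / 5 → ∀ v : ℤ × ℤ, A * (1 + ‖v‖) ^ χ ≤
      (max A 0 * b) * (1 + p (pt v)) ^ (max χ (1 / 10)) := by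
    intro A χ hχ v
    have h4 := (hb (1 - max χ (1 / 10)) (by
      have := max_lt hχ (by norm_num : (1 : ℝ) / 10 < 1 / 5)
      linarith) (by
      have := le_max_right χ (1 / 10 : ℝ)
      linarith) v).2
    rw [sub_sub_cancel, nm_eq] at h4
    have h5 : (1 + ‖v‖) ^ χ ≤ (1 + ‖v‖) ^ (max χ (1 / 10)) :=
      Real.rpow_le_rpow_of_exponent_le (by linarith [norm_nonneg v]) (le_max_left _ _)
    have h6 : 0 < (1 + ‖v‖) ^ χ := Real.rpow_pos_of_pos (by linarith [norm_nonneg v]) _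
    calc A * (1 + ‖v‖) ^ χ ≤ max A 0 * (1 + ‖v‖) ^ χ :=
          mul_le_mul_of_nonneg_right (le_max_left _ _) h6.le
      _ ≤ max A 0 * (b * (1 + p (pt v)) ^ (max χ (1 / 10))) :=
          mul_le_mul_of_nonneg_left (h5.trans h4) (le_max_right _ _)
      _ = _ := by ring
  have hexp : ∀ κ1 : ℝ, 4 / 5 < κ1 → ¬ ∃ c : ℝ, 0 < c ∧ ∀ᶠ t : ℝ in atTop,
      (volume : Measure Ω).real (Pool.Agent.Run7.h472.OH.Out
        (fun ω v => Pool.Agent.N662.FP.D (Pool.Agent.N662.FP.env X ω) 0 v) p κ1 t) ≤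
        Real.exp (-(t ^ c)) := by
    intro κ1 hκ1 h
    exact Run7.h943.FP.outer15 X hX p hG hTC κ1 16 hκ1 (by norm_num)
      (Pool.Agent.Run7.h472.OH.OE_OP h 16)
  refine ⟨?_, ?_, ?_, ?_, ?_, ?_, ?_, ?_⟩
  · intro κ e hκ he
    have h4 := f1 κ e hκ he
    rw [Filter.not_eventually] at h4
    exact h4.mono fun t ht => not_le.1 ht
  · intro κ q hκ hq hO
    set κ2 : ℝ := (4 / 5 + min κ (min (q / 2) 1)) / 2 with hκ2
    have hm : 4 / 5 < min κ (min (q / 2) 1) := lt_min hκ (lt_min (by linarith) (by norm_num))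
    have hm1 := min_le_left κ (min (q / 2) 1)
    have hm2 := (min_le_right κ (min (q / 2) 1)).trans (min_le_left _ _)
    have hm3 := (min_le_right κ (min (q / 2) 1)).trans (min_le_right _ _)
    refine hexp ((4 / 5 + κ2) / 2) (by linarith) ?_
    refine Pool.Agent.Run7.h981.OH.one hX p (κ := (4 / 5 + κ2) / 2) (κ' := κ2) (a := q)
      (by linarith) (by linarith) (by linarith) (by linarith) ?_
    refine Asymptotics.IsBigO.trans (Asymptotics.IsBigO.of_bound 1 ?_) hO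
    filter_upwards [eventually_ge_atTop 1] with t ht
    rw [Real.norm_of_nonneg measureReal_nonneg, Real.norm_of_nonneg measureReal_nonneg, one_mul]
    exact measureReal_mono (Run7.h943.FP.Lft_mono _ p κ κ2 t ht (by linarith))
      (measure_ne_top _ _)
  · intro κ hκ
    set κ2 : ℝ := min κ (9 / 10) with hκ2
    have h45 : 4 / 5 < κ2 := lt_min hκ (by norm_num)
    have hk1 : κ2 < 1 := lt_of_le_of_lt (min_le_right _ _) (by norm_num)
    obtain ⟨ε, hε, hh⟩ := Pool.Agent.Run7.h472.OH.oneBox Pool.Agent.Run7.h472.OH.pcs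
      Pool.Agent.Run7.h472.OH.pcs3 hX p hG.norm κ2 ((4 / 5 + κ2) / 2) (by linarith) (by linarith)
      hk1
    refine ⟨ε, hε, fun hcon => hexp ((4 / 5 + κ2) / 2) (by linarith) (hh ?_).1⟩
    filter_upwards [hcon, eventually_ge_atTop 1] with t ht ht1
    refine le_trans (measureReal_mono ?_ (measure_ne_top _ _)) (not_lt.1 ht)
    rintro ω ⟨u, v, hu, hv, h⟩
    rw [nm_eq] at hu hv
    refine ⟨u, v, hu, hv, lt_of_lt_of_le h ?_⟩
    have : t ^ (1 - κ) ≤ t ^ (1 - κ2) :=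
      Real.rpow_le_rpow_of_exponent_le ht1 (by linarith [min_le_left κ (9 / 10 : ℝ)])
    exact sub_le_sub_left this _
  · intro χ e A hχ he
    obtain ⟨v, hv⟩ := f3 (max χ (1 / 10)) e (max A 0 * b) (max_lt hχ (by norm_num)) he
    refine ⟨v, lt_of_lt_of_le hv (measureReal_mono ?_ (measure_ne_top _ _))⟩
    intro ω hω
    have h4 : p (pt v) + (max A 0 * b) * (1 + p (pt v)) ^ (max χ (1 / 10)) ≤
      Pool.Agent.N662.FP.D (Pool.Agent.N662.FP.env X ω) 0 v := hω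
    show p (pt v) + A * (1 + ‖v‖) ^ χ ≤ Pool.Agent.N662.FP.D (Pool.Agent.N662.FP.env X ω) 0 v
    linarith [hb' A χ hχ v]
  · intro χ q A hχ hq
    obtain ⟨v, hv⟩ := Run7.h943.FP.lower25 X hX p hG hTC χ q A hχ hq
    rw [nm_eq] at hv
    exact ⟨v, hv⟩
  · rintro χ hχ ⟨A, hA⟩
    exact f5 (max χ (1 / 10)) (max_lt hχ (by norm_num))
      ⟨max A 0 * b, fun v => (hA v).trans (hb' A χ hχ v)⟩
  · intro χ hχ
    obtain ⟨k, hk⟩ := Run7.h943.FP.central X hX p hG hTC χ hχ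
    refine ⟨k, fun hA => hk ?_⟩
    obtain ⟨A, hA⟩ := hA
    refine ⟨A, fun v => ?_⟩
    rw [nm_eq]
    exact hA v
  · exact fun v a b hb hab => Run7.h943.FP.cTWO Ω X hX v a b hb hab

end Pool.Agent.Results.MP_de94ef_pr.OneSidedLower
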