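import Pool.Agent.N662.FP.Cl
import Pool.Agent.Run7.h981.OH.One

set_option autoImplicit false
open MeasureTheory ProbabilityTheory Filter
open scoped Pointwise

/-!
The outer half of Q1 of MP_de94ef_pr (planar first-passage percolation with Exp(1) weights):
a polynomial bound with exponent larger than `2 κ` improves itself to a stretched exponential one.
-/

namespace Pool.Agent.Results.MP_de94ef_pr.OuterHalf

/-- the fattened cluster at time `t`, for the passage times `T` from the origin -/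
def Cluster (T : ℤ × ℤ → ℝ) (t : ℝ) : Set (ℝ × ℝ) :=
  {x : ℝ × ℝ | ∃ v : ℤ × ℤ, T v ≤ t ∧ |x.1 - (v.1 : ℝ)| ≤ 1 / 2 ∧ |x.2 - (v.2 : ℝ)| ≤ 1 / 2}

/-- the event that the fattened cluster at time `t` is not contained in `(1 + t ^ (-κ)) t` times
the limit shape -/
def Exits {Ω : Type} (T : Ω → ℤ × ℤ → ℝ) (μ : ℝ × ℝ → ℝ) (κ t : ℝ) : Set Ω :=
  {ω | ¬ (Cluster (T ω) t ⊆ ((1 + t ^ (-κ)) * t) • {x : ℝ × ℝ | μ x ≤ 1})}

/-- the event that a part of `(1 - t ^ (-κ)) t` times the limit shape is missed by the fattened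
cluster at time `t` -/
def Missed {Ω : Type} (T : Ω → ℤ × ℤ → ℝ) (μ : ℝ × ℝ → ℝ) (κ t : ℝ) : Set Ω :=
  {ω | ¬ (((1 - t ^ (-κ)) * t) • {x : ℝ × ℝ | μ x ≤ 1} ⊆ Cluster (T ω) t)}

/-- the lattice point `v` as a point of the plane -/
def pt (v : ℤ × ℤ) : ℝ × ℝ := ((v.1 : ℝ), (v.2 : ℝ))

theorem result :
  ∀ (Ω : Type) [MeasureSpace Ω] [IsProbabilityMeasure (volume : Measure Ω)]
    (X : Sym2 (ℤ × ℤ) → Ω → ℝ) (T : Ω → ℤ × ℤ → ℝ) (μ : ℝ × ℝ → ℝ),
    (∀ e, Measurable (X e)) →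
    iIndepFun X (volume : Measure Ω) →
    (∀ e, Measure.map (X e) (volume : Measure Ω) = expMeasure 1) →
    (∀ ω v, T ω v = sInf {s : ℝ | ∃ n : ℕ, ∃ p : ℕ → ℤ × ℤ, p 0 = 0 ∧ p n = v ∧
        (∀ i < n, |(p (i + 1)).1 - (p i).1| + |(p (i + 1)).2 - (p i).2| = 1) ∧
        s = ∑ i ∈ Finset.range n, X s(p i, p (i + 1)) ω}) →
    (∀ (x : ℝ × ℝ) (c : ℝ), 0 ≤ c → μ (c • x) = c * μ x) →
    Continuous μ →
    (∀ z : ℤ × ℤ, ∀ᵐ ω ∂(volume : Measure Ω),
        Tendsto (fun n : ℕ => T ω ((n : ℤ) • z) / (n : ℝ)) atTop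
          (nhds (μ ((z.1 : ℝ), (z.2 : ℝ))))) →
    -- (1) one exponent
    (∀ κ κ' a : ℝ, 0 < κ → κ < κ' → κ' < 1 → 2 * κ' < a → Asymptotics.IsBigO atTop
      (fun t : ℝ => (volume : Measure Ω).real (Exits T μ κ' t)) (fun t : ℝ => t ^ (-a)) →
      ∃ c : ℝ, 0 < c ∧ ∀ᶠ t : ℝ in atTop,
        (volume : Measure Ω).real (Exits T μ κ t) ≤ Real.exp (-(t ^ c))) ∧
    -- (2) all exponents below `K`; for `K = 2 / 3` the second item is the outer half of Q1
    (∀ K : ℝ, K < 1 → List.TFAE [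
      ∀ κ : ℝ, 0 < κ → κ < K → ∃ a : ℝ, 2 * κ < a ∧ Asymptotics.IsBigO atTop
        (fun t : ℝ => (volume : Measure Ω).real (Exits T μ κ t)) (fun t : ℝ => t ^ (-a)),
      ∀ κ : ℝ, 0 < κ → κ < K → ∀ a : ℝ, 0 < a → Asymptotics.IsBigO atTop
        (fun t : ℝ => (volume : Measure Ω).real (Exits T μ κ t)) (fun t : ℝ => t ^ (-a)),
      ∀ κ : ℝ, 0 < κ → κ < K → ∃ c : ℝ, 0 < c ∧
        ∀ᶠ t : ℝ in atTop, (volume : Measure Ω).real (Exits T μ κ t) ≤ Real.exp (-(t ^ c)),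
      ∀ κ : ℝ, 0 < κ → κ < K → ∃ c : ℝ, 0 < c ∧ ∀ᶠ v : ℤ × ℤ in cofinite,
        (volume : Measure Ω).real {ω | T ω v ≤ μ (pt v) - (1 + μ (pt v)) ^ (1 - κ)} ≤
          Real.exp (-((1 + μ (pt v)) ^ c)),
      ∀ κ : ℝ, 0 < κ → κ < K → ∃ a A : ℝ, 2 + 2 * κ < a ∧ ∀ v : ℤ × ℤ,
        (volume : Measure Ω).real {ω | T ω v ≤ μ (pt v) - (1 + μ (pt v)) ^ (1 - κ)} ≤
          A * (1 + μ (pt v)) ^ (-a)]) ∧
    -- (3) both halves of Q1 together
    (∀ K : ℝ, K < 1 → List.TFAE [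
      ∀ κ : ℝ, 0 < κ → κ < K → ∃ a : ℝ, 2 * κ < a ∧ Asymptotics.IsBigO atTop
        (fun t : ℝ => (volume : Measure Ω).real (Exits T μ κ t ∪ Missed T μ κ t))
        (fun t : ℝ => t ^ (-a)),
      ∀ κ : ℝ, 0 < κ → κ < K → ∀ a : ℝ, 0 < a → Asymptotics.IsBigO atTop
        (fun t : ℝ => (volume : Measure Ω).real (Exits T μ κ t ∪ Missed T μ κ t))
        (fun t : ℝ => t ^ (-a)),
      ∀ κ : ℝ, 0 < κ → κ < K → ∃ c : ℝ, 0 < c ∧ ∀ᶠ t : ℝ in atTop,
        (volume : Measure Ω).real (Exits T μ κ t ∪ Missed T μ κ t) ≤ Real.exp (-(t ^ c))]) := by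
  intro Ω _ _ X T μ h1 h2 h3 hT hhom hcont hlim
  obtain ⟨hX, hTD, p, hp, hG⟩ :=
    Pool.Agent.N662.FP.setup Ω X T μ h1 h2 h3 hT hhom hcont hlim
  subst hp
  subst hTD
  have ht := Pool.Agent.N662.FP.tends Pool.Agent.N662.FP.cNORM p hG.norm
  have A1 : ∀ κ κ' a : ℝ, 0 < κ → κ < κ' → κ' < 1 → 2 * κ' < a → Asymptotics.IsBigO atTop
      (fun t : ℝ => (volume : Measure Ω).real (Exits (fun ω v => _) p κ' t))
      (fun t : ℝ => t ^ (-a)) → _ :=
    fun κ κ' a h0 h1 h2 h3 h => Pool.Agent.Run7.h981.OH.one hX p h0 h1 h2 h3 h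
  have hnn : ∀ E : ℝ → Set Ω, ∀ t, 0 ≤ (volume : Measure Ω).real (E t) := fun E t =>
    measureReal_nonneg
  refine ⟨A1, ?_, ?_⟩
  · intro K hK
    tfae_have 1 → 3 := by
      intro h κ h0 hκ
      obtain ⟨a, ha, hO⟩ := h ((κ + K) / 2) (by linarith) (by linarith)
      exact A1 κ ((κ + K) / 2) a h0 (by linarith) (by linarith) ha hO
    tfae_have 3 → 2 := by
      intro h κ h0 hκ a _
      obtain ⟨c, hc, hc'⟩ := h κ h0 hκ
      exact Pool.Agent.Run7.h981.OH.exp_O (hnn _) hc hc' a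
    tfae_have 2 → 1 := by
      intro h κ h0 hκ
      exact ⟨2 * κ + 1, by linarith, h κ h0 hκ (2 * κ + 1) (by linarith)⟩
    tfae_have 3 → 4 := by
      intro h κ h0 hκ
      obtain ⟨c, hc, hc'⟩ := h κ h0 hκ
      exact ⟨c / 2, half_pos hc,
        Pool.Agent.Run7.h981.OH.to_one p ht h0 (by linarith) hc hc'⟩
    tfae_have 4 → 5 := by
      intro h κ h0 hκ
      obtain ⟨c, hc, hc'⟩ := h κ h0 hκ
      obtain ⟨A, hA⟩ := Pool.Agent.Run7.h981.OH.cof_all (fun v => apply_nonneg p _) ht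
        (fun v => measureReal_le_one) hc hc' (3 + 2 * κ)
      exact ⟨3 + 2 * κ, A, by linarith, hA⟩
    tfae_have 5 → 1 := by
      intro h κ h0 hκ
      obtain ⟨a, A, ha, hA⟩ := h ((κ + K) / 2) (by linarith) (by linarith)
      exact ⟨a - 2, by linarith, Pool.Agent.Run7.h981.OH.from_one hX p h0
        (κ2 := (κ + K) / 2) (by linarith) (by linarith) (by linarith) hA⟩
    tfae_finish
  · intro K hK
    tfae_have 1 → 3 := by
      intro h κ h0 hκ
      have hI := (Pool.Agent.N662.FP.tfae Pool.Agent.N662.FP.cNORM Pool.Agent.N662.FP.cDD2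
        Pool.Agent.N662.FP.cEE hG K hK).out 0 2
      obtain ⟨c1, hc1, e1⟩ := hI.1 (by
        intro κ h0 hκ
        refine ⟨Real.exp (-2), Real.exp_lt_exp.2 (by norm_num), ?_⟩
        obtain ⟨a, ha, hO⟩ := h κ h0 hκ
        have h5 := hO.trans_tendsto (tendsto_rpow_neg_atTop (show 0 < a by linarith))
        filter_upwards [h5.eventually (gt_mem_nhds (Real.exp_pos (-2)))] with t ht
        exact (measureReal_mono (Set.subset_union_right) (measure_ne_top _ _)).trans ht.le) κ h0 hκ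
      obtain ⟨c2, hc2, e2⟩ := (by
        obtain ⟨a, ha, hO⟩ := h ((κ + K) / 2) (by linarith) (by linarith)
        refine A1 κ ((κ + K) / 2) a h0 (by linarith) (by linarith) ha ?_
        refine Asymptotics.IsBigO.trans (Asymptotics.IsBigO.of_bound 1 ?_) hO
        filter_upwards with t
        rw [one_mul, Real.norm_eq_abs, Real.norm_eq_abs, abs_of_nonneg measureReal_nonneg,
          abs_of_nonneg measureReal_nonneg]
        exact measureReal_mono Set.subset_union_left (measure_ne_top _ _) :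
          ∃ c : ℝ, 0 < c ∧ ∀ᶠ t : ℝ in atTop, (volume : Measure Ω).real
            (Exits (fun ω v => Pool.Agent.N662.FP.D (Pool.Agent.N662.FP.env X ω) 0 v) p κ t) ≤
              Real.exp (-(t ^ c)))
      have hm : 0 < min c1 c2 := lt_min hc1 hc2
      refine ⟨min c1 c2 / 2, half_pos hm, ?_⟩
      filter_upwards [e1, e2, Pool.Agent.Run7.h981.OH.ev_exp (b := c1) (half_pos hm)
        (by linarith [min_le_left c1 c2]) one_pos 1 0,
        Pool.Agent.Run7.h981.OH.ev_exp (b := c2) (half_pos hm)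
        (by linarith [min_le_right c1 c2]) one_pos 1 0] with t f1 f2 f3 f4
      rw [Real.rpow_zero, one_mul, one_mul, one_mul] at f3 f4
      refine (measureReal_union_le _ _).trans ?_
      have := Real.exp_pos (-(t ^ (min c1 c2 / 2)))
      have f1' : (volume : Measure Ω).real (Missed (fun ω v =>
        Pool.Agent.N662.FP.D (Pool.Agent.N662.FP.env X ω) 0 v) p κ t) ≤ Real.exp (-(t ^ c1)) := f1
      linarith
    tfae_have 3 → 2 := by
      intro h κ h0 hκ a _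
      obtain ⟨c, hc, hc'⟩ := h κ h0 hκ
      exact Pool.Agent.Run7.h981.OH.exp_O (hnn _) hc hc' a
    tfae_have 2 → 1 := by
      intro h κ h0 hκ
      exact ⟨2 * κ + 1, by linarith, h κ h0 hκ (2 * κ + 1) (by linarith)⟩
    tfae_finish

end Pool.Agent.Results.MP_de94ef_pr.OuterHalf
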