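import Pool.Agent.Run7.h472.OH.Asm8

set_option autoImplicit false
open MeasureTheory ProbabilityTheory Filter
open scoped Pointwise

/-!
# Planar first-passage percolation: the outer half of Q1 of MP_de94ef_pr

**Theorem.** Exp(1) edge weights on `ℤ²`. Write `Out(κ, t)` for the event that the fattened
cluster at time `t` is not contained in `(1 + t^(-κ)) t` times the limit shape, and `Short(κ, t)`
for the event that some two points `u, v` of the box `[-t, t]²` have passage time less than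
`μ(v - u) - t^(1-κ)`.

(1) One exponent, in probability. For all `κ' < κ < 1` there is `ε > 0` such that
`limsup P(Short(κ, t)) < ε` implies `P(Out(κ', t)) ≤ exp (-t^c)` for large `t`, and
`P(T(0,v) ≤ (1-δ) μ(v)) ≤ A exp (-δ^(1/κ') μ(v) / A)` for all `v` and all `δ ∈ (0,1]`.

(2) For all `K ≤ 1` the following are equivalent, each for all `κ ∈ (0, K)`:
`P(Short(κ, t)) → 0`; stretched exponential decay of `P(Short(κ, t))`; polynomial decay of
`P(Out(κ, t))` with one power `q > 3/(1-κ)`; with all powers (for `K = 2/3` this is the outer half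
of Q1); stretched exponential decay; the large deviation bound
`P(T(0,v) ≤ (1-δ) μ(v)) ≤ A exp (-δ^(1/κ) μ(v) / A)`; the bound
`P(T(0,v) ≤ μ(v) - A (1+|v|)^(1-κ)) ≤ A (1+|v|)^(-q)` with one power `q > 5/(1-κ)`.

Proof. Let `W n` be the largest deficit `μ - time` of a path near a block of size `n`.
(a) `W N ≤ K g + 2 (sum of the W n > g)` over the blocks of size `n` of a block of size `N = M n`,
`M` a constant, because a path can be cut so that every bad block is used once. If bad blocks have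
small probability, the product `∏ (1 + W n / s)^a` over independent bad blocks controls the
`a`-th moment of `W N` by that of `W n`: polynomial decay. (b) If bad blocks have probability
`n^(-q)` then a block of size `N = n^(1+b)` sees fewer than `j` bad blocks except with
probability `N^(-c j)`, and their deficits are estimated by recursion: stretched exponential decay.
(c) Exponential moments of the deficits of bad blocks beat the entropy of the coarse paths; a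
large deviation bound with exponent `θ` improves these moments, and the iteration converges to
the exponent `1/κ'`.

Parts by helpers 213, 361, 416, 472, 627, 637, 704, 711, 760, 781, 824, 889, 957, 973
(folders Run7/h.../OH).
-/

namespace Pool.Agent.Results.MP_de94ef_pr.OuterHalfTails

/-- the fattened cluster at time `t`, for the passage times `T` from the origin -/
def Cluster (T : ℤ × ℤ → ℝ) (t : ℝ) : Set (ℝ × ℝ) :=
  {x : ℝ × ℝ | ∃ v : ℤ × ℤ, T v ≤ t ∧ |x.1 - (v.1 : ℝ)| ≤ 1 / 2 ∧ |x.2 - (v.2 : ℝ)| ≤ 1 / 2}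

/-- the event that the fattened cluster at time `t` is not contained in `(1 + t ^ (-κ)) t` times
the limit shape -/
def Exceeded {Ω : Type} (T : Ω → ℤ × ℤ → ℝ) (μ : ℝ × ℝ → ℝ) (κ t : ℝ) : Set Ω :=
  {ω | ¬ (Cluster (T ω) t ⊆ ((1 + t ^ (-κ)) * t) • {x : ℝ × ℝ | μ x ≤ 1})}

/-- the lattice point `v` as a point of the plane -/
def pt (v : ℤ × ℤ) : ℝ × ℝ := ((v.1 : ℝ), (v.2 : ℝ))

/-- the passage time from `u` to `v` in the environment `X`, at the outcome `ω` -/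
noncomputable def Time {Ω : Type} (X : Sym2 (ℤ × ℤ) → Ω → ℝ) (ω : Ω) (u v : ℤ × ℤ) : ℝ :=
  sInf {s : ℝ | ∃ n : ℕ, ∃ p : ℕ → ℤ × ℤ, p 0 = u ∧ p n = v ∧
    (∀ i < n, |(p (i + 1)).1 - (p i).1| + |(p (i + 1)).2 - (p i).2| = 1) ∧
    s = ∑ i ∈ Finset.range n, X s(p i, p (i + 1)) ω}

/-- the event that the passage time between some two points of the box `[-t, t]²` is more than
`t ^ (1 - κ)` below its value for the norm `μ` -/
def Short {Ω : Type} (X : Sym2 (ℤ × ℤ) → Ω → ℝ) (μ : ℝ × ℝ → ℝ) (κ t : ℝ) : Set Ω :=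
  {ω | ∃ u v : ℤ × ℤ, ‖u‖ ≤ t ∧ ‖v‖ ≤ t ∧ Time X ω u v < μ (pt (v - u)) - t ^ (1 - κ)}

theorem result :
  ∀ (Ω : Type) [MeasureSpace Ω] [IsProbabilityMeasure (volume : Measure Ω)]
    (X : Sym2 (ℤ × ℤ) → Ω → ℝ) (T : Ω → ℤ × ℤ → ℝ) (μ : ℝ × ℝ → ℝ),
    (∀ e, Measurable (X e)) →
    iIndepFun X (volume : Measure Ω) →
    (∀ e, Measure.map (X e) (volume : Measure Ω) = expMeasure 1) →
    (∀ ω v, T ω v = sInf {s : ℝ | ∃ n : ℕ, ∃ p : ℕ → ℤ × ℤ, p 0 = 0 ∧ p n = v ∧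
        (∀ i < n, |(p (i + 1)).1 - (p i).1| + |(p (i + 1)).2 - (p i).2| = 1) ∧
        s = ∑ i ∈ Finset.range n, X s(p i, p (i + 1)) ω}) →
    (∀ (x : ℝ × ℝ) (c : ℝ), 0 ≤ c → μ (c • x) = c * μ x) →
    Continuous μ →
    (∀ z : ℤ × ℤ, ∀ᵐ ω ∂(volume : Measure Ω),
        Tendsto (fun n : ℕ => T ω ((n : ℤ) • z) / (n : ℝ)) atTop
          (nhds (μ ((z.1 : ℝ), (z.2 : ℝ))))) →
    -- (1) one exponent, in probability
    (∀ κ κ' : ℝ, 0 < κ' → κ' < κ → κ < 1 → ∃ ε : ℝ, 0 < ε ∧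
      ((∀ᶠ t : ℝ in atTop, (volume : Measure Ω).real (Short X μ κ t) ≤ ε) →
      (∃ c : ℝ, 0 < c ∧ ∀ᶠ t : ℝ in atTop,
        (volume : Measure Ω).real (Exceeded T μ κ' t) ≤ Real.exp (-(t ^ c))) ∧
      ∃ A : ℝ, 0 < A ∧ ∀ (v : ℤ × ℤ) (δ : ℝ), 0 < δ → δ ≤ 1 →
        (volume : Measure Ω).real {ω | T ω v ≤ (1 - δ) * μ (pt v)} ≤
          A * Real.exp (-(δ ^ (1 / κ') * μ (pt v) / A)))) ∧
    -- (2) all exponents below `K`; for `K = 2 / 3` the fourth item is the outer half of Q1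
    (∀ K : ℝ, K ≤ 1 → List.TFAE [
      ∀ κ : ℝ, 0 < κ → κ < K →
        Tendsto (fun t : ℝ => (volume : Measure Ω).real (Short X μ κ t)) atTop (nhds 0),
      ∀ κ : ℝ, 0 < κ → κ < K → ∃ c : ℝ, 0 < c ∧
        ∀ᶠ t : ℝ in atTop, (volume : Measure Ω).real (Short X μ κ t) ≤ Real.exp (-(t ^ c)),
      ∀ κ : ℝ, 0 < κ → κ < K → ∃ q : ℝ, 3 / (1 - κ) < q ∧ Asymptotics.IsBigO atTop
        (fun t : ℝ => (volume : Measure Ω).real (Exceeded T μ κ t)) (fun t : ℝ => t ^ (-q)),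
      ∀ κ : ℝ, 0 < κ → κ < K → ∀ q : ℝ, 0 < q → Asymptotics.IsBigO atTop
        (fun t : ℝ => (volume : Measure Ω).real (Exceeded T μ κ t)) (fun t : ℝ => t ^ (-q)),
      ∀ κ : ℝ, 0 < κ → κ < K → ∃ c : ℝ, 0 < c ∧
        ∀ᶠ t : ℝ in atTop, (volume : Measure Ω).real (Exceeded T μ κ t) ≤ Real.exp (-(t ^ c)),
      ∀ κ : ℝ, 0 < κ → κ < K → ∃ A : ℝ, 0 < A ∧ ∀ (v : ℤ × ℤ) (δ : ℝ), 0 < δ → δ ≤ 1 →
        (volume : Measure Ω).real {ω | T ω v ≤ (1 - δ) * μ (pt v)} ≤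
          A * Real.exp (-(δ ^ (1 / κ) * μ (pt v) / A)),
      ∀ κ : ℝ, 0 < κ → κ < K → ∃ q : ℝ, 5 / (1 - κ) < q ∧ ∃ A : ℝ, 0 < A ∧ ∀ v : ℤ × ℤ,
        (volume : Measure Ω).real {ω | T ω v ≤ μ (pt v) - A * (1 + ‖v‖) ^ (1 - κ)} ≤
          A * (1 + ‖v‖) ^ (-q)]) := by
  intro Ω _ _ X T μ h1 h2 h3 hT hhom hcont hlim
  obtain ⟨hX, hTD, p, hp, hG⟩ :=
    Pool.Agent.N662.FP.setup Ω X T μ h1 h2 h3 hT hhom hcont hlim
  subst hTD
  subst hp
  have eS : ∀ κ t : ℝ, Pool.Agent.Run7.h472.OH.Short X p κ t = Short X p κ t := by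
    intro κ t
    unfold Pool.Agent.Run7.h472.OH.Short Short
    simp only [Pool.Agent.Run7.h472.OH.nm_norm]
    exact rfl
  refine ⟨?_, ?_⟩
  · intro κ κ' h0 h1 h2
    obtain ⟨ε, hε, hh⟩ := Pool.Agent.Run7.h472.OH.oneBox Pool.Agent.Run7.h472.OH.pcs
      Pool.Agent.Run7.h472.OH.pcs3 hX p hG.norm κ κ' h0 h1 h2
    simp only [eS] at hh
    exact ⟨ε, hε, fun hS => ⟨(hh hS).1, (hh hS).2.1⟩⟩
  · intro K hK
    have h := Pool.Agent.Run7.h472.OH.outer_tfae Pool.Agent.Run7.h472.OH.pcs hX p hG.norm K hK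
    have e : ∀ κ q : ℝ, Pool.Agent.Run7.h472.OH.LT
        (fun ω v => Pool.Agent.N662.FP.D (Pool.Agent.N662.FP.env X ω) 0 v)
        (fun v => p (Pool.Agent.N662.FP.em v)) κ q ↔ ∃ A : ℝ, 0 < A ∧ ∀ v : ℤ × ℤ,
        (volume : Measure Ω).real {ω | Pool.Agent.N662.FP.D (Pool.Agent.N662.FP.env X ω) 0 v ≤
          p (pt v) - A * (1 + ‖v‖) ^ (1 - κ)} ≤ A * (1 + ‖v‖) ^ (-q) := by
      intro κ q
      unfold Pool.Agent.Run7.h472.OH.LT
      simp only [Pool.Agent.Run7.h472.OH.nm_norm]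
      exact Iff.rfl
    simp only [e] at h
    have g := Pool.Agent.Run7.h472.OH.outer_box Pool.Agent.Run7.h472.OH.pcs
      Pool.Agent.Run7.h472.OH.pcs3 hX p hG.norm K hK
    unfold Pool.Agent.Run7.h472.OH.SE at g
    simp only [eS] at g
    have b1 := g.out 0 2
    have b2 := g.out 1 2
    have a1 := h.out 0 3
    have a2 := h.out 1 3
    have a3 := h.out 2 3
    have a4 := h.out 4 3
    tfae_have 1 ↔ 6 := b1
    tfae_have 2 ↔ 6 := b2
    tfae_have 3 ↔ 6 := a1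
    tfae_have 4 ↔ 6 := a2
    tfae_have 5 ↔ 6 := a3
    tfae_have 7 ↔ 6 := a4
    tfae_finish

end Pool.Agent.Results.MP_de94ef_pr.OuterHalfTails
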